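import Pool.Agent.Lib_helper69.HM.G3
import Pool.Agent.Lib_helper69.HM.Z2
import Pool.Agent.Lib_helper69.HM.Z4
import Pool.Agent.Lib_helper69.HM.G1
import Pool.Agent.Lib_helper69.HM.A5

open MeasureTheory Finset
open scoped ENNReal

namespace Pool.Agent.HM

theorem B1_shift {G : Type} [AddCommGroup G] [DecidableEq G] (ρ : ℝ → ℝ) (m : ℝ)
    (stp : Bool → G) (W : Finset G) (d : ℝ) (f : G → ℝ) :
    wt ρ m stp W (f + fun _ => -d) =
      ENNReal.ofReal (Real.exp (m ^ 2 * d * (∑ x ∈ W, f x) - m ^ 2 * d ^ 2 * W.card / 2)) *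
        wt ρ m stp W f := by
  unfold wt
  have h1 : ∏ p ∈ edges stp W, ENNReal.ofReal (ρ ((f + fun _ => -d : G → ℝ) (p.1 + stp p.2) -
      (f + fun _ => -d : G → ℝ) p.1)) =
      ∏ p ∈ edges stp W, ENNReal.ofReal (ρ (f (p.1 + stp p.2) - f p.1)) := by
    apply Finset.prod_congr rfl
    intro p _
    simp only [Pi.add_apply]
    rw [add_sub_add_right_eq_sub]
  have h2 : ∏ x ∈ W, ENNReal.ofReal (Real.exp (-(m ^ 2 * (f + fun _ => -d : G → ℝ) x ^ 2 / 2))) =
      ENNReal.ofReal (Real.exp (m ^ 2 * d * (∑ x ∈ W, f x) - m ^ 2 * d ^ 2 * W.card / 2)) *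
      ∏ x ∈ W, ENNReal.ofReal (Real.exp (-(m ^ 2 * f x ^ 2 / 2))) := by
    rw [← ENNReal.ofReal_prod_of_nonneg (fun _ _ => (Real.exp_pos _).le),
      ← ENNReal.ofReal_prod_of_nonneg (fun _ _ => (Real.exp_pos _).le),
      ← ENNReal.ofReal_mul (Real.exp_pos _).le, ← Real.exp_sum, ← Real.exp_sum, ← Real.exp_add]
    congr 2
    have h3 : ∑ x ∈ W, -(m ^ 2 * (f + fun _ => -d : G → ℝ) x ^ 2 / 2) =
        ∑ x ∈ W, (m ^ 2 * d * f x - m ^ 2 * d ^ 2 / 2 + -(m ^ 2 * f x ^ 2 / 2)) := by
      apply Finset.sum_congr rfl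
      intro x _
      simp only [Pi.add_apply]
      ring
    rw [h3, Finset.sum_add_distrib, Finset.sum_sub_distrib, Finset.mul_sum, Finset.sum_const,
      nsmul_eq_mul]
    ring
  rw [h1, h2]
  ring

/-- comparison of partition functions from log-concavity -/
theorem B1_log {a b c z : ℝ} (ha : 0 < a) (hb : 0 < b) (hc : 0 < c) {K d Φ : ℝ} (hK : 0 < K)
    (hd : 0 < d) (hcz : c ≤ z) (hz : z ≤ Real.exp Φ * b)
    (h : a ^ (K / (K + d)) * b ^ (1 - K / (K + d)) ≤ c) :
    a ≤ Real.exp (Φ / K * d) * c := by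
  have hKd : 0 < K + d := by linarith
  have h1 : K / (K + d) * Real.log a + (1 - K / (K + d)) * Real.log b ≤ Real.log c := by
    rw [← Real.log_rpow ha, ← Real.log_rpow hb, ← Real.log_mul (Real.rpow_pos_of_pos ha _).ne'
      (Real.rpow_pos_of_pos hb _).ne']
    exact Real.log_le_log (mul_pos (Real.rpow_pos_of_pos ha _) (Real.rpow_pos_of_pos hb _)) h
  have h2 : Real.log c ≤ Φ + Real.log b := by
    have := Real.log_le_log hc (hcz.trans hz)
    rwa [Real.log_mul (Real.exp_pos _).ne' hb.ne', Real.log_exp] at this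
  have h3 : K * Real.log a + d * Real.log b ≤ (K + d) * Real.log c := by
    have h4 : (K / (K + d) * Real.log a + (1 - K / (K + d)) * Real.log b) * (K + d) =
        K * Real.log a + d * Real.log b := by
      field_simp
      ring
    have h5 := mul_le_mul_of_nonneg_right h1 hKd.le
    rw [h4] at h5
    linarith
  have h6 : Real.log a ≤ Φ / K * d + Real.log c := by
    have h7 : K * Real.log a ≤ K * (Φ / K * d + Real.log c) := by
      have h8 : K * (Φ / K * d + Real.log c) = Φ * d + K * Real.log c := by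
        field_simp
      rw [h8]
      nlinarith
    exact le_of_mul_le_mul_left h7 hK
  have h9 : Real.exp (Real.log a) ≤ Real.exp (Φ / K * d + Real.log c) := Real.exp_le_exp.mpr h6
  rwa [Real.exp_log ha, Real.exp_add, Real.exp_log hc] at h9

/-- the average of the field with boundary values `K` is bounded by the cost of the boundary
values `2 K` -/
theorem avg_bound {G : Type} [AddCommGroup G] [DecidableEq G] {ρ : ℝ → ℝ} (hρ : EdgeWeight ρ)
    {m : ℝ} (hm : 0 < m) (stp : Bool → G) (W : Finset G) {K : ℝ} (hK : 0 < K) (Φ : ℝ)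
    (h : lm W (wt ρ m stp W) 0 ≤
      ENNReal.ofReal (Real.exp Φ) * lm W (wt ρ m stp W) (fun _ => 2 * K)) :
    m ^ 2 * K * ∑ x ∈ W, ∫ f, f x ∂gib (wt ρ m stp W) W (fun _ => K) ≤ Φ := by
  have hN : Nice (wt ρ m stp W) := nice_wt hρ m stp W
  have hZ0 : ∀ c : ℝ, lm W (wt ρ m stp W) (fun _ => c) ≠ 0 := fun c =>
    (lm_wt_pos_const hρ m stp W c).ne'
  have hZt : ∀ ξ : G → ℝ, lm W (wt ρ m stp W) ξ ≠ ∞ := fun ξ =>
    (lm_wt_lt_top hρ hm stp W ξ).ne
  have hprob : IsProbabilityMeasure (gib (wt ρ m stp W) W (fun _ => K)) :=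
    gib_prob hN.meas W _ (hZ0 K) (hZt _)
  set μ := gib (wt ρ m stp W) W (fun _ => K) with hμ
  set n : ℝ := (W.card : ℝ) with hn
  set E : ℝ := ∑ x ∈ W, ∫ f, f x ∂μ with hE
  have hcoord : ∀ x ∈ W, Integrable (fun f : G → ℝ => f x) μ := fun x hx =>
    integrable_coord hρ hm stp W _ (hZ0 K) hx
  have hS : Integrable (fun f : G → ℝ => ∑ x ∈ W, f x) μ := integrable_finsetSum W hcoord
  have hES : ∫ f, ∑ x ∈ W, f x ∂μ = E := integral_finsetSum W hcoord
  -- the basic inequality
  have key : ∀ d : ℝ, 0 < d → 1 + m ^ 2 * d * E - m ^ 2 * d ^ 2 * n / 2 ≤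
      Real.exp (Φ / K * d) := by
    intro d hd
    have hKd : 0 < K + d := by linarith
    -- log-concavity
    have hlam0 : 0 < K / (K + d) := by positivity
    have hlam1 : K / (K + d) < 1 := by
      rw [div_lt_one hKd]; linarith
    have hlc := lm_lc hN W hlam0 hlam1 (fun _ => K - d) (fun _ => 2 * K)
    have hcomb : (K / (K + d)) • (fun _ : G => K - d) + (1 - K / (K + d)) • (fun _ : G => 2 * K) =
        fun _ => K := by
      funext x
      simp only [Pi.add_apply, Pi.smul_apply, smul_eq_mul]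
      field_simp
      ring
    rw [hcomb] at hlc
    have hzK : lm W (wt ρ m stp W) (fun _ => K) ≤ lm W (wt ρ m stp W) 0 :=
      lm_le_zero hN W _
    have hr1 : (lm W (wt ρ m stp W) (fun _ => K - d)).toReal ^ (K / (K + d)) *
        (lm W (wt ρ m stp W) (fun _ => 2 * K)).toReal ^ (1 - K / (K + d)) ≤
        (lm W (wt ρ m stp W) (fun _ => K)).toReal := by
      have := ENNReal.toReal_mono (hZt _) hlc
      rwa [ENNReal.toReal_mul, ← ENNReal.toReal_rpow, ← ENNReal.toReal_rpow] at this
    have hr2 : (lm W (wt ρ m stp W) (fun _ => K)).toReal ≤ (lm W (wt ρ m stp W) 0).toReal :=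
      ENNReal.toReal_mono (hZt _) hzK
    have hr3 : (lm W (wt ρ m stp W) 0).toReal ≤
        Real.exp Φ * (lm W (wt ρ m stp W) (fun _ => 2 * K)).toReal := by
      have := ENNReal.toReal_mono (ENNReal.mul_ne_top ENNReal.ofReal_ne_top (hZt _)) h
      rwa [ENNReal.toReal_mul, ENNReal.toReal_ofReal (Real.exp_pos _).le] at this
    have hcmp := B1_log (ENNReal.toReal_pos (hZ0 (K - d)) (hZt _))
      (ENNReal.toReal_pos (hZ0 (2 * K)) (hZt _)) (ENNReal.toReal_pos (hZ0 K) (hZt _)) hK hd
      hr2 hr3 hr1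
    -- the shifted field
    set g : (G → ℝ) → ℝ := fun f => m ^ 2 * d * (∑ x ∈ W, f x) - m ^ 2 * d ^ 2 * n / 2 with hg
    have hgm : Measurable g := by
      rw [hg]
      have : Measurable fun f : G → ℝ => ∑ x ∈ W, f x :=
        Finset.measurable_sum W (fun x _ => measurable_pi_apply x)
      exact (this.const_mul _).sub_const _
    have hint : ∫⁻ f, ENNReal.ofReal (Real.exp (g f)) ∂μ =
        (lm W (wt ρ m stp W) (fun _ => K))⁻¹ * lm W (wt ρ m stp W) (fun _ => K - d) := by
      rw [hμ, lintegral_gib hN.meas W _ (by fun_prop)]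
      congr 1
      have h1 : (fun f => ENNReal.ofReal (Real.exp (g f)) * wt ρ m stp W f) =
          fun f => wt ρ m stp W (f + fun _ => -d) := by
        funext f
        rw [B1_shift]
      rw [h1, lm_add hN.meas]
      congr 1
    have hexpi : Integrable (fun f => Real.exp (g f)) μ := by
      have h1 := (integrable_exp_lin hρ hm stp W (fun _ => K) (hZ0 K)
        (fun _ => m ^ 2 * d)).mul_const (Real.exp (-(m ^ 2 * d ^ 2 * n / 2)))
      refine h1.congr ?_
      apply Filter.Eventually.of_forall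
      intro f
      dsimp only
      rw [← Real.exp_add, hg]
      congr 1
      dsimp only
      rw [← Finset.mul_sum]
      ring
    have hval : ∫ f, Real.exp (g f) ∂μ ≤ Real.exp (Φ / K * d) := by
      rw [integral_eq_lintegral_of_nonneg_ae
        (Filter.Eventually.of_forall fun f => (Real.exp_pos _).le)
        hexpi.aestronglyMeasurable, hint, ENNReal.toReal_mul, ENNReal.toReal_inv]
      have hpos := ENNReal.toReal_pos (hZ0 K) (hZt (fun _ => K))
      rw [inv_mul_le_iff₀ hpos]
      linarith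
    have hlow : ∫ f, (1 + g f) ∂μ ≤ ∫ f, Real.exp (g f) ∂μ := by
      apply integral_mono _ hexpi
      · intro f
        have := Real.add_one_le_exp (g f)
        dsimp only
        linarith
      · have hgi : Integrable g μ := (hS.const_mul _).sub (integrable_const _)
        exact (integrable_const 1).add hgi
    have hcomp : ∫ f, (1 + g f) ∂μ = 1 + m ^ 2 * d * E - m ^ 2 * d ^ 2 * n / 2 := by
      have hgi : Integrable g μ := (hS.const_mul _).sub (integrable_const _)
      rw [integral_add (integrable_const 1) hgi, hg, integral_sub (hS.const_mul _)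
        (integrable_const _), integral_const_mul, hES]
      simp
      ring
    linarith
  -- the limit d -> 0
  have hderiv : HasDerivAt (fun d : ℝ => Real.exp (Φ / K * d)) (Φ / K) 0 := by
    have h1 : HasDerivAt (fun d : ℝ => Φ / K * d) (Φ / K) 0 := by
      simpa using (hasDerivAt_id (0:ℝ)).const_mul (Φ / K)
    have h2 := h1.exp
    simpa using h2
  have hslope := hderiv.tendsto_slope_zero_right
  have hlin : Filter.Tendsto (fun d : ℝ => m ^ 2 * n / 2 * d) (nhdsWithin 0 (Set.Ioi 0))
      (nhds 0) := by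
    have : Filter.Tendsto (fun d : ℝ => m ^ 2 * n / 2 * d) (nhds 0) (nhds (m ^ 2 * n / 2 * 0)) :=
      (continuous_const_mul _).tendsto 0
    rw [mul_zero] at this
    exact this.mono_left nhdsWithin_le_nhds
  have hsum := hslope.add hlin
  have hfin : m ^ 2 * E ≤ Φ / K + 0 := by
    apply ge_of_tendsto hsum
    filter_upwards [self_mem_nhdsWithin] with d hd
    have hd0 : (0:ℝ) < d := hd
    have hk := key d hd0
    simp only [zero_add, mul_zero, Real.exp_zero, smul_eq_mul]
    have h1 : m ^ 2 * E = d⁻¹ * (m ^ 2 * d * E) := by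
      field_simp
    have h2 : m ^ 2 * n / 2 * d = d⁻¹ * (m ^ 2 * d ^ 2 * n / 2) := by
      field_simp
    rw [h1, h2, ← mul_add]
    apply mul_le_mul_of_nonneg_left _ (by positivity)
    linarith
  rw [add_zero, le_div_iff₀ hK] at hfin
  linarith

end Pool.Agent.HM
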