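import Pool.Agent.Lib_helper69.HM.R1
import Pool.Agent.Lib_helper69.HM.R2
import Pool.Agent.Lib_helper69.HM.Y1

open MeasureTheory Finset
open scoped ENNReal

namespace Pool.Agent.HM

variable {ρ : ℝ → ℝ} {m : ℝ}

theorem R3_int {N : ℕ} {μ : Measure (Tor N → ℝ)} [IsProbabilityMeasure μ]
    {F : (Tor N → ℝ) → ℝ} (mF : Measurable F) {B : ℝ} (hB : ∀ f, |F f| ≤ B) : Integrable F μ :=
  Integrable.of_bound mF.aestronglyMeasurable B
    (Filter.Eventually.of_forall fun f => by rw [Real.norm_eq_abs]; exact hB f)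

theorem R3_comp (N : ℕ) : Measurable fun f : Tor N → ℝ => f ∘ theta N :=
  measurable_pi_lambda _ fun x => measurable_pi_apply (theta N x)

/-- reflection positivity for bounded real functions -/
theorem rp_real (hρ : EdgeWeight ρ) (hm : 0 < m) (N : ℕ) (k : Bool) {F : (Tor N → ℝ) → ℝ}
    (mF : Measurable F) {B : ℝ} (hB : ∀ f, |F f| ≤ B)
    (dF : ∀ f g : Tor N → ℝ, (∀ x ∈ lefT N ∪ plaT N, f x = g x) → F f = F g) :
    0 ≤ ∫ f, F f * F (f ∘ theta N) ∂muT ρ m N k := by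
  have hprob := muT_prob hρ hm N k
  obtain ⟨w₀, u, mw, mu, dw, du, hfac⟩ := wt_factor hρ m N k
  set P : (Tor N → ℝ) → ℝ := fun f => max (F f) 0 with hP
  set Q : (Tor N → ℝ) → ℝ := fun f => max (-F f) 0 with hQ
  have mP : Measurable P := mF.max measurable_const
  have mQ : Measurable Q := mF.neg.max measurable_const
  have hB0 : 0 ≤ B := (abs_nonneg _).trans (hB 0)
  have hP0 : ∀ f, 0 ≤ P f := fun f => le_max_right _ _
  have hQ0 : ∀ f, 0 ≤ Q f := fun f => le_max_right _ _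
  have hPB : ∀ f, P f ≤ B := fun f => max_le ((le_abs_self _).trans (hB f)) hB0
  have hQB : ∀ f, Q f ≤ B := fun f => max_le ((neg_le_abs _).trans (hB f)) hB0
  have hFPQ : ∀ f, F f = P f - Q f := by
    intro f
    simp only [hP, hQ]
    rcases le_total 0 (F f) with h | h
    · rw [max_eq_left h, max_eq_right (by linarith)]; ring
    · rw [max_eq_right h, max_eq_left (by linarith)]; ring
  have dP : ∀ f g : Tor N → ℝ, (∀ x ∈ lefT N ∪ plaT N, f x = g x) →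
      ENNReal.ofReal (P f) = ENNReal.ofReal (P g) := fun f g h => by
    simp only [hP, dF f g h]
  have dQ : ∀ f g : Tor N → ℝ, (∀ x ∈ lefT N ∪ plaT N, f x = g x) →
      ENNReal.ofReal (Q f) = ENNReal.ofReal (Q g) := fun f g h => by
    simp only [hQ, dF f g h]
  have hmain := rp_abstract_le (theta N) (lefT N) ((lefT N).image (theta N)) (plaT N)
    (fun x => by simp [theta]) (fun x hx => theta_fix hx) rfl (lefT_disj N) (lefT_plaT N)
    (rigT_plaT N) (torus_union N) mw mu mP.ennreal_ofReal mQ.ennreal_ofReal dw du dP dQ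
  have mwt : Measurable (wt ρ m (stpT N k) univ) := by
    have : wt ρ m (stpT N k) univ = fun f => w₀ f * (u f * u (f ∘ theta N)) := funext hfac
    rw [this]
    exact mw.mul (mu.mul (mu.comp (R3_comp N)))
  have hconv : ∀ F₁ F₂ : (Tor N → ℝ) → ℝ, Measurable F₁ → Measurable F₂ →
      (∀ f, 0 ≤ F₁ f) → (∀ f, 0 ≤ F₂ f) →
      ∫⁻ f, ENNReal.ofReal (F₁ f * F₂ (f ∘ theta N)) ∂muT ρ m N k =
        (lm univ (wt ρ m (stpT N k) univ) 0)⁻¹ *
          lm univ (fun f => ENNReal.ofReal (F₁ f) * ENNReal.ofReal (F₂ (f ∘ theta N)) *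
            (w₀ f * (u f * u (f ∘ theta N)))) 0 := by
    intro F₁ F₂ m1 m2 p1 p2
    have m2' : Measurable fun f : Tor N → ℝ => F₂ (f ∘ theta N) := m2.comp (R3_comp N)
    unfold muT
    rw [lintegral_gib mwt univ 0 (F := fun f => ENNReal.ofReal (F₁ f * F₂ (f ∘ theta N)))
      (m1.mul m2').ennreal_ofReal]
    congr 2
    funext f
    rw [ENNReal.ofReal_mul (p1 f), hfac f]
  have hle : ∫⁻ f, ENNReal.ofReal (P f * Q (f ∘ theta N)) ∂muT ρ m N k +
      ∫⁻ f, ENNReal.ofReal (Q f * P (f ∘ theta N)) ∂muT ρ m N k ≤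
      ∫⁻ f, ENNReal.ofReal (P f * P (f ∘ theta N)) ∂muT ρ m N k +
      ∫⁻ f, ENNReal.ofReal (Q f * Q (f ∘ theta N)) ∂muT ρ m N k := by
    rw [hconv P Q mP mQ hP0 hQ0, hconv Q P mQ mP hQ0 hP0, hconv P P mP mP hP0 hP0,
      hconv Q Q mQ mQ hQ0 hQ0, ← mul_add, ← mul_add]
    exact mul_le_mul_right hmain _
  have hI : ∀ F₁ F₂ : (Tor N → ℝ) → ℝ, Measurable F₁ → Measurable F₂ →
      (∀ f, 0 ≤ F₁ f) → (∀ f, 0 ≤ F₂ f) → (∀ f, F₁ f ≤ B) → (∀ f, F₂ f ≤ B) →
      Integrable (fun f => F₁ f * F₂ (f ∘ theta N)) (muT ρ m N k) := by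
    intro F₁ F₂ m1 m2 p1 p2 b1 b2
    refine R3_int (m1.mul (m2.comp (R3_comp N))) (B := B * B) ?_
    intro f
    rw [abs_of_nonneg (mul_nonneg (p1 f) (p2 _))]
    exact mul_le_mul (b1 f) (b2 _) (p2 _) hB0
  have hlint : ∀ F₁ F₂ : (Tor N → ℝ) → ℝ, Measurable F₁ → Measurable F₂ →
      (∀ f, 0 ≤ F₁ f) → (∀ f, 0 ≤ F₂ f) → (∀ f, F₁ f ≤ B) → (∀ f, F₂ f ≤ B) →
      ∫⁻ f, ENNReal.ofReal (F₁ f * F₂ (f ∘ theta N)) ∂muT ρ m N k =
        ENNReal.ofReal (∫ f, F₁ f * F₂ (f ∘ theta N) ∂muT ρ m N k) := by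
    intro F₁ F₂ m1 m2 p1 p2 b1 b2
    rw [ofReal_integral_eq_lintegral_ofReal (hI F₁ F₂ m1 m2 p1 p2 b1 b2)
      (Filter.Eventually.of_forall fun f => mul_nonneg (p1 f) (p2 _))]
  have hnn : ∀ F₁ F₂ : (Tor N → ℝ) → ℝ, (∀ f, 0 ≤ F₁ f) → (∀ f, 0 ≤ F₂ f) →
      0 ≤ ∫ f, F₁ f * F₂ (f ∘ theta N) ∂muT ρ m N k := fun F₁ F₂ p1 p2 =>
    integral_nonneg fun f => mul_nonneg (p1 f) (p2 _)
  rw [hlint P Q mP mQ hP0 hQ0 hPB hQB, hlint Q P mQ mP hQ0 hP0 hQB hPB,
    hlint P P mP mP hP0 hP0 hPB hPB, hlint Q Q mQ mQ hQ0 hQ0 hQB hQB,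
    ← ENNReal.ofReal_add (hnn P Q hP0 hQ0) (hnn Q P hQ0 hP0),
    ← ENNReal.ofReal_add (hnn P P hP0 hP0) (hnn Q Q hQ0 hQ0),
    ENNReal.ofReal_le_ofReal_iff (add_nonneg (hnn P P hP0 hP0) (hnn Q Q hQ0 hQ0))] at hle
  have hexp : ∫ f, F f * F (f ∘ theta N) ∂muT ρ m N k =
      (∫ f, P f * P (f ∘ theta N) ∂muT ρ m N k + ∫ f, Q f * Q (f ∘ theta N) ∂muT ρ m N k) -
      (∫ f, P f * Q (f ∘ theta N) ∂muT ρ m N k + ∫ f, Q f * P (f ∘ theta N) ∂muT ρ m N k) := by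
    have e1 : ∫ f, (P f * P (f ∘ theta N) + Q f * Q (f ∘ theta N)) ∂muT ρ m N k =
        ∫ f, P f * P (f ∘ theta N) ∂muT ρ m N k + ∫ f, Q f * Q (f ∘ theta N) ∂muT ρ m N k :=
      integral_add (hI P P mP mP hP0 hP0 hPB hPB) (hI Q Q mQ mQ hQ0 hQ0 hQB hQB)
    have e2 : ∫ f, (P f * Q (f ∘ theta N) + Q f * P (f ∘ theta N)) ∂muT ρ m N k =
        ∫ f, P f * Q (f ∘ theta N) ∂muT ρ m N k + ∫ f, Q f * P (f ∘ theta N) ∂muT ρ m N k :=
      integral_add (hI P Q mP mQ hP0 hQ0 hPB hQB) (hI Q P mQ mP hQ0 hP0 hQB hPB)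
    have e3 : ∫ f, ((P f * P (f ∘ theta N) + Q f * Q (f ∘ theta N)) -
        (P f * Q (f ∘ theta N) + Q f * P (f ∘ theta N))) ∂muT ρ m N k =
        ∫ f, (P f * P (f ∘ theta N) + Q f * Q (f ∘ theta N)) ∂muT ρ m N k -
        ∫ f, (P f * Q (f ∘ theta N) + Q f * P (f ∘ theta N)) ∂muT ρ m N k :=
      integral_sub ((hI P P mP mP hP0 hP0 hPB hPB).add (hI Q Q mQ mQ hQ0 hQ0 hQB hQB))
        ((hI P Q mP mQ hP0 hQ0 hPB hQB).add (hI Q P mQ mP hQ0 hP0 hQB hPB))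
    rw [← e1, ← e2, ← e3]
    apply integral_congr_ae
    apply Filter.Eventually.of_forall
    intro f
    dsimp only
    rw [hFPQ f, hFPQ (f ∘ theta N)]
    ring
  rw [hexp]
  linarith

theorem R3_tr_meas (L : ℝ) : Measurable (tr L) := by
  unfold tr
  fun_prop

theorem R3_tr_abs {L : ℝ} (hL : 0 ≤ L) (t : ℝ) : |tr L t| ≤ L := by
  unfold tr
  rw [abs_le]
  exact ⟨le_max_left _ _, max_le (by linarith) (min_le_right _ _)⟩

/-- the translated two point function -/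
theorem R3_dN (hρ : EdgeWeight ρ) (L : ℝ) (N : ℕ) (k : Bool) (x y : ℤ × ℤ) :
    ∫ f, tr L (f (proj N k x)) * tr L (f (proj N k y)) ∂muT ρ m N k =
      dN ρ m L N k (x - y) := by
  unfold dN
  have hm1 : Measurable fun f : Tor N → ℝ => fun z => f (z + proj N k y) :=
    measurable_pi_lambda _ fun z => measurable_pi_apply _
  have hm2 : Measurable fun f : Tor N → ℝ => tr L (f 0) * tr L (f (proj N k (x - y))) :=
    ((R3_tr_meas L).comp (measurable_pi_apply _)).mul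
      ((R3_tr_meas L).comp (measurable_pi_apply _))
  have h := muT_trans (m := m) hρ N k (proj N k y)
  have h2 : ∫ f, tr L (f 0) * tr L (f (proj N k (x - y))) ∂muT ρ m N k =
      ∫ f, tr L (f 0) * tr L (f (proj N k (x - y)))
        ∂((muT ρ m N k).map (fun f z => f (z + proj N k y))) := by rw [h]
  rw [h2, integral_map hm1.aemeasurable hm2.aestronglyMeasurable]
  apply integral_congr_ae
  apply Filter.Eventually.of_forall
  intro f
  dsimp only
  rw [zero_add, ← proj_add, sub_add_cancel]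
  ring

theorem R3_pos (hρ : EdgeWeight ρ) (hm : 0 < m) {L : ℝ} (hL : 0 ≤ L) (N : ℕ) (k : Bool)
    (A : Finset (ℤ × ℤ)) (g : ℤ × ℤ → ℤ × ℤ)
    (hg : ∀ y, theta N (proj N k y) = proj N k (g y))
    (hA : ∀ x ∈ A, proj N k x ∈ lefT N ∪ plaT N) (a : ℤ × ℤ → ℝ) :
    0 ≤ ∑ x ∈ A, ∑ y ∈ A, a x * a y * dN ρ m L N k (x - g y) := by
  have hprob := muT_prob hρ hm N k
  set F : (Tor N → ℝ) → ℝ := fun f => ∑ x ∈ A, a x * tr L (f (proj N k x)) with hF
  have mF : Measurable F := Finset.measurable_sum A fun x _ =>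
    ((R3_tr_meas L).comp (measurable_pi_apply _)).const_mul (a x)
  have hB : ∀ f, |F f| ≤ ∑ x ∈ A, |a x| * L := by
    intro f
    refine (Finset.abs_sum_le_sum_abs _ _).trans (Finset.sum_le_sum fun x _ => ?_)
    rw [abs_mul]
    exact mul_le_mul_of_nonneg_left (R3_tr_abs hL _) (abs_nonneg _)
  have dF : ∀ f g : Tor N → ℝ, (∀ x ∈ lefT N ∪ plaT N, f x = g x) → F f = F g := by
    intro f g h
    apply Finset.sum_congr rfl
    intro x hx
    rw [h _ (hA x hx)]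
  have h := rp_real hρ hm N k mF hB dF
  have hexp : ∫ f, F f * F (f ∘ theta N) ∂muT ρ m N k =
      ∑ x ∈ A, ∑ y ∈ A, a x * a y * dN ρ m L N k (x - g y) := by
    have h1 : (fun f : Tor N → ℝ => F f * F (f ∘ theta N)) = fun f =>
        ∑ x ∈ A, ∑ y ∈ A, a x * a y * (tr L (f (proj N k x)) * tr L (f (proj N k (g y)))) := by
      funext f
      simp only [hF, Function.comp_apply, hg]
      rw [Finset.sum_mul_sum]
      apply Finset.sum_congr rfl
      intro x _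
      apply Finset.sum_congr rfl
      intro y _
      ring
    have hi : ∀ x y : ℤ × ℤ, Integrable (fun f : Tor N → ℝ =>
        a x * a y * (tr L (f (proj N k x)) * tr L (f (proj N k (g y))))) (muT ρ m N k) := by
      intro x y
      apply Integrable.const_mul
      refine R3_int (((R3_tr_meas L).comp (measurable_pi_apply _)).mul
        ((R3_tr_meas L).comp (measurable_pi_apply _))) (B := L * L) ?_
      intro f
      rw [abs_mul]
      exact mul_le_mul (R3_tr_abs hL _) (R3_tr_abs hL _) (abs_nonneg _) hL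
    rw [h1, integral_finsetSum A fun x _ => integrable_finsetSum A fun y _ => hi x y]
    apply Finset.sum_congr rfl
    intro x _
    rw [integral_finsetSum A fun y _ => hi x y]
    apply Finset.sum_congr rfl
    intro y _
    rw [integral_const_mul, R3_dN hρ]
  rwa [hexp] at h

theorem R3_cast (N : ℕ) {z : ℤ} (h0 : 0 ≤ z) (h1 : z ≤ N + 1) :
    (z : ZMod (2 * N + 2)).val = z.toNat ∧ z.toNat ≤ N + 1 := by
  obtain ⟨j, rfl⟩ := Int.eq_ofNat_of_zero_le h0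
  have hj : j ≤ N + 1 := by exact_mod_cast h1
  refine ⟨?_, by simpa using hj⟩
  simp only [Int.cast_natCast, Int.toNat_natCast]
  rw [ZMod.val_natCast]
  exact Nat.mod_eq_of_lt (by omega)

theorem R3_mem (N : ℕ) {x : Tor N} {z : ℤ} (hx : x.1 = (z : ZMod (2 * N + 2))) (h0 : 0 ≤ z)
    (h1 : z ≤ N + 1) : x ∈ lefT N ∪ plaT N := by
  obtain ⟨h2, h3⟩ := R3_cast N h0 h1
  rw [Finset.mem_union, lefT, plaT, Finset.mem_filter, Finset.mem_filter, hx, h2]
  simp only [Finset.mem_univ, true_and]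
  omega

/-- positivity along the axis -/
theorem dN_axis (hρ : EdgeWeight ρ) (hm : 0 < m) {L : ℝ} (hL : 0 ≤ L) (N : ℕ)
    (A : Finset (ℤ × ℤ)) (hA : ∀ x ∈ A, 0 ≤ x.1 ∧ x.1 ≤ N + 1) (a : ℤ × ℤ → ℝ) :
    0 ≤ ∑ x ∈ A, ∑ y ∈ A, a x * a y * dN ρ m L N false (x.1 + y.1, x.2 - y.2) := by
  have h := R3_pos hρ hm hL N false A (fun y => (-y.1, y.2)) (fun y => by
      unfold proj theta stpT
      ext
      · simp
      · simp)
    (fun x hx => R3_mem N (z := x.1) (by simp [proj, stpT]) (hA x hx).1 (hA x hx).2) a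
  refine h.trans_eq ?_
  apply Finset.sum_congr rfl
  intro x _
  apply Finset.sum_congr rfl
  intro y _
  congr 2
  ext
  · simp
  · simp

/-- positivity along the diagonal -/
theorem dN_diag (hρ : EdgeWeight ρ) (hm : 0 < m) {L : ℝ} (hL : 0 ≤ L) (N : ℕ)
    (A : Finset (ℤ × ℤ)) (hA : ∀ x ∈ A, 0 ≤ x.1 + x.2 ∧ x.1 + x.2 ≤ N + 1) (a : ℤ × ℤ → ℝ) :
    0 ≤ ∑ x ∈ A, ∑ y ∈ A, a x * a y * dN ρ m L N true (x.1 + y.2, x.2 + y.1) := by
  have h := R3_pos hρ hm hL N true A (fun y => (-y.2, -y.1)) (fun y => by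
      unfold proj theta stpT
      ext
      · simp
        try ring
      · simp
        try ring)
    (fun x hx => R3_mem N (z := x.1 + x.2) (by simp [proj, stpT]) (hA x hx).1 (hA x hx).2) a
  refine h.trans_eq ?_
  apply Finset.sum_congr rfl
  intro x _
  apply Finset.sum_congr rfl
  intro y _
  congr 2
  ext
  · simp
  · simp

end Pool.Agent.HM
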